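import Pool.Agent.Helper88.D4.Stmts4

/-!
# Project D4 (MP_e1889a_ag): derivations of the germ are estimated on generators of the graded ring
-/

set_option autoImplicit false

namespace Pool.Agent.Helper20.D4

open Module Filter Topology IsLocalRing Pool.Agent.Helper37.SD Pool.Agent.Helper20.TS
  Pool.Agent.Helper11.SY Pool.Agent.Helper20.LT Pool.Agent.Helper88.D4

section Approx

variable {R : Type} [CommRing R] [Algebra ℂ R] [IsLocalRing R]

/-- approximation -/
theorem approx_of [IsNoetherianRing R]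
    (hres : ∀ f : R, ∃ c : ℂ, f - algebraMap ℂ R c ∈ maximalIdeal R) {w : CVal R}
    (L : WithTop ℝ → Submodule ℂ R) (hL : ∀ s t, s ≤ t → L t ≤ L s)
    (hgen : ∀ g : R, g ≠ 0 → ∃ p ∈ L (w.v g), w.v g < w.v (g - p)) (r : ℝ) (g : R) :
    ∃ p ∈ L (w.v g), (r : WithTop ℝ) ≤ w.v (g - p) := by
  obtain ⟨N, hN⟩ := pow_le_idl w r
  haveI : FiniteDimensional ℂ (R ⧸ maximalIdeal R ^ N) := fin_pow hres N
  haveI : FiniteDimensional ℂ (R ⧸ w.idl r) :=
    Module.Finite.of_surjective (Ideal.Quotient.factorₐ ℂ hN).toLinearMap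
      (Ideal.Quotient.factor_surjective hN)
  -- the subspace of the quotient given by a valuation ideal
  set W : WithTop ℝ → Submodule ℂ (R ⧸ w.idl r) := fun s =>
    { carrier := {y | ∃ x : R, s ≤ w.v x ∧ Ideal.Quotient.mk (w.idl r) x = y}
      add_mem' := by
        rintro _ _ ⟨x, hx, rfl⟩ ⟨y, hy, rfl⟩
        exact ⟨x + y, w.v.map_le_add hx hy, map_add _ _ _⟩
      zero_mem' := ⟨0, by rw [w.v.map_zero]; exact le_top, map_zero _⟩
      smul_mem' := by
        rintro c _ ⟨x, hx, rfl⟩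
        refine ⟨algebraMap ℂ R c * x, ?_, ?_⟩
        · rw [w.v.map_mul]
          exact hx.trans (le_add_of_nonneg_left (w.nonneg _))
        · rw [map_mul, Algebra.smul_def]
          rfl } with hW
  have key : ∀ (d : ℕ) (g : R), Module.finrank ℂ (W (w.v g)) ≤ d →
      ∃ p ∈ L (w.v g), (r : WithTop ℝ) ≤ w.v (g - p) := by
    intro d
    induction d with
    | zero =>
      intro g hd
      refine ⟨0, Submodule.zero_mem _, ?_⟩
      rw [sub_zero]
      have h1 : W (w.v g) = ⊥ := Submodule.finrank_eq_zero.1 (Nat.le_zero.1 hd)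
      have h2 : Ideal.Quotient.mk (w.idl r) g ∈ W (w.v g) := ⟨g, le_rfl, rfl⟩
      rw [h1, Submodule.mem_bot, Ideal.Quotient.eq_zero_iff_mem] at h2
      exact h2
    | succ d ih =>
      intro g hd
      by_cases hr : (r : WithTop ℝ) ≤ w.v g
      · exact ⟨0, Submodule.zero_mem _, by rwa [sub_zero]⟩
      · have hg : g ≠ 0 := by
          rintro rfl
          apply hr
          rw [w.v.map_zero]
          exact le_top
        obtain ⟨p, hp, hlt⟩ := hgen g hg
        have h1 : Module.finrank ℂ (W (w.v (g - p))) ≤ d := by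
          have h2 : W (w.v (g - p)) < W (w.v g) := by
            refine lt_of_le_of_ne ?_ ?_
            · rintro _ ⟨x, hx, rfl⟩
              exact ⟨x, hlt.le.trans hx, rfl⟩
            · intro heq
              have h3 : Ideal.Quotient.mk (w.idl r) g ∈ W (w.v (g - p)) := by
                rw [heq]
                exact ⟨g, le_rfl, rfl⟩
              obtain ⟨x, hx, hxg⟩ := h3
              rw [eq_comm, Ideal.Quotient.eq] at hxg
              have h4 : (r : WithTop ℝ) ≤ w.v (g - x) := hxg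
              have h5 : w.v g < w.v (g - x) := lt_of_lt_of_le (not_le.1 hr) h4
              have h6 : w.v g < w.v x := lt_of_lt_of_le hlt hx
              have h7 := w.v.map_lt_add h5 h6
              rw [sub_add_cancel] at h7
              exact lt_irrefl _ h7
          have h3 := Submodule.finrank_lt_finrank_of_lt h2
          omega
        obtain ⟨q, hq, hqr⟩ := ih (g - p) h1
        refine ⟨p + q, Submodule.add_mem _ hp (hL _ _ hlt.le hq), ?_⟩
        rwa [← sub_sub]
  exact key _ g le_rfl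

end Approx

section Grl

variable {R : Type} [CommRing R] [Algebra ℂ R] [IsLocalRing R] {w : CVal R}
  {K : Type} [Field K] [Algebra ℂ K] {R₀ : Subalgebra ℂ K} {ξ : Derivation ℂ K K}
  {sym : ℝ → R → K}

theorem GrL_smul (h : GrL w R₀ ξ sym) (c : ℝ) (z : ℂ) {x : R} (hx : (c : WithTop ℝ) ≤ w.v x) :
    sym c (z • x) = z • sym c x := by
  have h0 : ((0 : ℝ) : WithTop ℝ) ≤ w.v (algebraMap ℂ R z) := w.nonneg _
  have h1 := h.mul 0 c (algebraMap ℂ R z) x h0 hx
  rw [zero_add, h.const, ← Algebra.smul_def, ← Algebra.smul_def] at h1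
  exact h1

theorem GrL_one (h : GrL w R₀ ξ sym) : sym 0 1 = 1 := by
  have h1 := h.const 1
  rwa [map_one, map_one] at h1

theorem GrL_zero (h : GrL w R₀ ξ sym) (c : ℝ) : sym c 0 = 0 := by
  rw [h.zero_iff c 0 (ge_zero w c)]
  exact gt_zero w c

/-- symbols of degree `c` of monomials in `G` -/
def Mo (w : CVal R) (sym : ℝ → R → K) (G : Set R) (c : ℝ) : Set K :=
  {y | ∃ p ∈ Submonoid.closure G, (c : WithTop ℝ) ≤ w.v p ∧ sym c p = y}

theorem closure_mo (h : GrL w R₀ ξ sym) {G : Set R} {T : Set K}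
    (hT : ∀ t ∈ T, ∃ c : ℝ, ∃ g ∈ G, (c : WithTop ℝ) ≤ w.v g ∧ sym c g = t) {y : K}
    (hy : y ∈ Submonoid.closure T) : ∃ c : ℝ, y ∈ Mo w sym G c := by
  induction hy using Submonoid.closure_induction with
  | mem t ht =>
    obtain ⟨c, g, hg, h1, h2⟩ := hT t ht
    exact ⟨c, g, Submonoid.subset_closure hg, h1, h2⟩
  | one => exact ⟨0, 1, Submonoid.one_mem _, w.nonneg _, GrL_one h⟩
  | mul x y _ _ hx hy =>
    obtain ⟨a, p, hp, hp1, hp2⟩ := hx
    obtain ⟨b, q, hq, hq1, hq2⟩ := hy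
    refine ⟨a + b, p * q, Submonoid.mul_mem _ hp hq, ?_, ?_⟩
    · rw [w.v.map_mul, WithTop.coe_add]
      exact add_le_add hp1 hq1
    · rw [h.mul a b p q hp1 hq1, hp2, hq2]

/-- Decomposition into components. -/
theorem exists_comp' {S : ℝ → Set K} {x : K} (hx : x ∈ Submodule.span ℂ (⋃ c, S c)) :
    ∃ f : ℝ →₀ K, (∀ c, f c ∈ Submodule.span ℂ (S c)) ∧ (f.sum fun _ y => y) = x := by
  classical
  induction hx using Submodule.span_induction with
  | mem y hy =>
    obtain ⟨c, hc⟩ := Set.mem_iUnion.1 hy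
    refine ⟨Finsupp.single c y, fun b => ?_, Finsupp.sum_single_index rfl⟩
    by_cases hb : c = b
    · subst hb
      rw [Finsupp.single_eq_same]
      exact Submodule.subset_span hc
    · rw [Finsupp.single_eq_of_ne (Ne.symm hb)]
      exact Submodule.zero_mem _
  | zero => exact ⟨0, fun b => Submodule.zero_mem _, by simp⟩
  | add x y _ _ hx hy =>
    obtain ⟨f, hf, hf1⟩ := hx
    obtain ⟨g, hg, hg1⟩ := hy
    refine ⟨f + g, fun b => ?_, ?_⟩
    · rw [Finsupp.add_apply]
      exact Submodule.add_mem _ (hf b) (hg b)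
    · rw [Finsupp.sum_add_index' (fun _ => rfl) (fun _ _ _ => rfl), hf1, hg1]
  | smul z x _ hx =>
    obtain ⟨f, hf, hf1⟩ := hx
    refine ⟨z • f, fun b => ?_, ?_⟩
    · exact Submodule.smul_mem _ z (hf b)
    · rw [Finsupp.sum_smul_index' (fun _ => rfl), ← Finsupp.smul_sum, hf1]

theorem mo_eig (h : GrL w R₀ ξ sym) {G : Set R} {c : ℝ} {y : K}
    (hy : y ∈ Submodule.span ℂ (Mo w sym G c)) : ξ y = (c : ℂ) • y := by
  induction hy using Submodule.span_induction with
  | mem y hy =>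
    obtain ⟨p, _, h1, rfl⟩ := hy
    exact (h.mem c p h1).2
  | zero => rw [map_zero, smul_zero]
  | add x y _ _ hx hy => rw [map_add, hx, hy, smul_add]
  | smul z x _ hx => rw [Derivation.map_smul, hx, smul_comm]

/-- combinations of monomials in `G` of value at least `s` -/
def Lw (w : CVal R) (G : Set R) (s : WithTop ℝ) : Submodule ℂ R :=
  Submodule.span ℂ {p | p ∈ Submonoid.closure G ∧ s ≤ w.v p}

theorem mo_lift (h : GrL w R₀ ξ sym) {G : Set R} {c : ℝ} {y : K}
    (hy : y ∈ Submodule.span ℂ (Mo w sym G c)) :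
    ∃ p ∈ Lw w G c, (c : WithTop ℝ) ≤ w.v p ∧ sym c p = y := by
  induction hy using Submodule.span_induction with
  | mem y hy =>
    obtain ⟨p, hp, h1, h2⟩ := hy
    exact ⟨p, Submodule.subset_span ⟨hp, h1⟩, h1, h2⟩
  | zero => exact ⟨0, Submodule.zero_mem _, ge_zero w c, GrL_zero h c⟩
  | add x y _ _ hx hy =>
    obtain ⟨p, hp, h1, h2⟩ := hx
    obtain ⟨q, hq, h3, h4⟩ := hy
    exact ⟨p + q, Submodule.add_mem _ hp hq, ge_add w c h1 h3, by rw [h.add c p q h1 h3, h2, h4]⟩
  | smul z x _ hx =>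
    obtain ⟨p, hp, h1, h2⟩ := hx
    exact ⟨z • p, Submodule.smul_mem _ z hp, le_trans h1 (val_smul w z p), by
      rw [GrL_smul h c z h1, h2]⟩

/-- leading terms -/
theorem lead_of (h : GrL w R₀ ξ sym) {G : Set R} {T : Set K}
    (hR : Algebra.adjoin ℂ T = R₀)
    (hT : ∀ t ∈ T, ∃ c : ℝ, ∃ g ∈ G, (c : WithTop ℝ) ≤ w.v g ∧ sym c g = t)
    {g : R} (hg : g ≠ 0) : ∃ p ∈ Lw w G (w.v g), w.v g < w.v (g - p) := by
  obtain ⟨r, hr⟩ := real_val w hg
  rw [hr]
  have hgr : (r : WithTop ℝ) ≤ w.v g := le_of_eq hr.symm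
  obtain ⟨h1, h2⟩ := h.mem r g hgr
  have h3 : sym r g ∈ Submodule.span ℂ (⋃ c, Mo w sym G c) := by
    have h4 : sym r g ∈ Subalgebra.toSubmodule (Algebra.adjoin ℂ T) := by
      rw [hR]
      exact h1
    rw [Algebra.adjoin_eq_span] at h4
    refine Submodule.span_mono ?_ h4
    intro y hy
    obtain ⟨c, hc⟩ := closure_mo h hT hy
    exact Set.mem_iUnion.2 ⟨c, hc⟩
  obtain ⟨f, hf, hf1⟩ := exists_comp' h3
  have h5 : IsDec (ξ : K →ₗ[ℂ] K) ⊤ (fun _ => True) f (sym r g) :=
    ⟨fun c => mo_eig h (hf c), fun _ => Submodule.mem_top, fun _ _ => trivial, hf1⟩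
  have h6 := h5.unique (isDec_single (A := (ξ : K →ₗ[ℂ] K)) h2)
  have h7 : sym r g ∈ Submodule.span ℂ (Mo w sym G r) := by
    have h8 := hf r
    rwa [h6, Finsupp.single_eq_same] at h8
  obtain ⟨p, hp, hp1, hp2⟩ := mo_lift h h7
  refine ⟨p, hp, ?_⟩
  have hnp : (r : WithTop ℝ) ≤ w.v ((-1 : ℂ) • p) := le_trans hp1 (val_smul w _ p)
  have e1 : g - p = g + (-1 : ℂ) • p := by rw [neg_smul, one_smul, sub_eq_add_neg]
  have h9 : (r : WithTop ℝ) ≤ w.v (g - p) := by
    rw [e1]
    exact ge_add w r hgr hnp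
  rw [← h.zero_iff r (g - p) h9, e1, h.add r _ _ hgr hnp, GrL_smul h r _ hp1, hp2, neg_smul,
    one_smul, add_neg_cancel]

end Grl

/-- a derivation which is estimated on `G` is estimated on monomials -/
theorem der_closure {R : Type} [CommRing R] [Algebra ℂ R] [IsLocalRing R] {w : CVal R}
    {G : Set R} {δ : Derivation ℂ R R} {d : ℝ}
    (hG : ∀ g ∈ G, w.v g + (d : WithTop ℝ) ≤ w.v (δ g)) {p : R}
    (hp : p ∈ Submonoid.closure G) : w.v p + (d : WithTop ℝ) ≤ w.v (δ p) := by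
  induction hp using Submonoid.closure_induction with
  | mem t ht => exact hG t ht
  | one =>
    rw [Derivation.map_one_eq_zero, w.v.map_zero]
    exact le_top
  | mul x y _ _ hx hy =>
    rw [Derivation.leibniz, smul_eq_mul, smul_eq_mul]
    refine w.v.map_le_add ?_ ?_
    · rw [w.v.map_mul, w.v.map_mul, add_assoc]
      exact add_le_add le_rfl hy
    · rw [w.v.map_mul, w.v.map_mul, add_comm (w.v x), add_assoc]
      exact add_le_add le_rfl hx

theorem der_Lw {R : Type} [CommRing R] [Algebra ℂ R] [IsLocalRing R] {w : CVal R}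
    {G : Set R} {δ : Derivation ℂ R R} {d : ℝ}
    (hG : ∀ g ∈ G, w.v g + (d : WithTop ℝ) ≤ w.v (δ g)) {s : WithTop ℝ} {p : R}
    (hp : p ∈ Lw w G s) : s + (d : WithTop ℝ) ≤ w.v (δ p) := by
  induction hp using Submodule.span_induction with
  | mem y hy => exact (add_le_add hy.2 le_rfl).trans (der_closure hG hy.1)
  | zero =>
    rw [Derivation.map_zero, w.v.map_zero]
    exact le_top
  | add x y _ _ hx hy =>
    rw [map_add]
    exact w.v.map_le_add hx hy
  | smul z x _ hx =>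
    rw [Derivation.map_smul]
    exact hx.trans (val_smul w z _)

theorem s_GEN : S_GEN := by
  intro R _ _ _ _ _ _ hres w K _ _ R₀ ξ sym h hc
  classical
  obtain ⟨T, δ₀, _, hT, hR⟩ := hc.exists_gens
  have hx : ∀ t : K, ∃ x : R, ∃ c : ℝ, t ∈ T → (c : WithTop ℝ) ≤ w.v x ∧ sym c x = t := by
    intro t
    by_cases ht : t ∈ T
    · obtain ⟨h1, _, c, _, h2⟩ := hT t ht
      obtain ⟨x, h3, h4⟩ := h.surj c t h1 h2
      exact ⟨x, c, fun _ => ⟨h3, h4⟩⟩
    · exact ⟨0, 0, fun h => absurd h ht⟩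
  choose x c hxc using hx
  refine ⟨T.image x, ?_, ?_⟩
  · intro g hg
    obtain ⟨t, ht, rfl⟩ := Finset.mem_image.1 hg
    intro h0
    have h1 := (hxc t ht).2
    rw [h0, GrL_zero h] at h1
    exact (hT t ht).2.1 h1.symm
  · intro δ d hδ g
    by_cases hg : g = 0
    · rw [hg, Derivation.map_zero, w.v.map_zero]
      exact le_top
    obtain ⟨r, hr⟩ := real_val w hg
    have hgen : ∀ g : R, g ≠ 0 → ∃ p ∈ Lw w ((T.image x : Finset R) : Set R) (w.v g),
        w.v g < w.v (g - p) := by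
      intro g hg
      refine lead_of h (T := (T : Set K)) hR ?_ hg
      intro t ht
      exact ⟨c t, x t, Finset.mem_coe.2 (Finset.mem_image_of_mem x ht), (hxc t ht).1,
        (hxc t ht).2⟩
    obtain ⟨N, hN⟩ := pow_le_idl w (r + d)
    obtain ⟨ρ, hρ⟩ := chevalley hres w (N + 1)
    obtain ⟨p, hp, hq⟩ := approx_of hres (Lw w ((T.image x : Finset R) : Set R))
      (fun s t hst => Submodule.span_mono fun y hy => ⟨hy.1, hst.trans hy.2⟩) hgen ρ g
    have h1 : δ (g - p) ∈ maximalIdeal R ^ N := der_pow _ δ N (hρ _ hq)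
    have h2 : ((r + d : ℝ) : WithTop ℝ) ≤ w.v (δ (g - p)) := hN h1
    have h3 : w.v g + (d : WithTop ℝ) ≤ w.v (δ p) := der_Lw hδ hp
    have e1 : δ g = δ p + δ (g - p) := by rw [map_sub, add_sub_cancel]
    rw [e1]
    refine w.v.map_le_add h3 ?_
    rw [hr, ← WithTop.coe_add]
    exact h2

end Pool.Agent.Helper20.D4
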