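import Pool.Agent.Helper88.D4.Stmts3
import Pool.Agent.Helper20.TS.Df

/-!
# Project D4 (MP_e1889a_ag), the piece `S_RES`: Cox algebras in a field of rational functions

`K'` is the field of rational functions over `K` in the variables `t i`, the Cox algebra `Cx R u t`
is the sum of the `H⁰(O(∑ n i • D i)) t ^ n`.
-/

set_option autoImplicit false

namespace Pool.Agent.Helper20.D4

open Module Pool.Agent.Helper37.SD Pool.Agent.Helper20.TS Pool.Agent.Helper88.D4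

/-- `K'` is the field of rational functions over `K` in the variables `t i`; derivations of `K`
extend to `K'`, with `t i` as eigenvectors. -/
structure Ext (K : Type) {K' : Type} [Field K] [Algebra ℂ K] [Field K'] [Algebra ℂ K']
    [Algebra K K'] {p : ℕ} (t : Fin p → K') : Prop where
  tower : ∀ z : ℂ, algebraMap ℂ K' z = algebraMap K K' (algebraMap ℂ K z)
  ind : AlgebraicIndependent K t
  frac : ∀ x : K', ∃ P Q : MvPolynomial (Fin p) K, Q ≠ 0 ∧
    x * MvPolynomial.aeval t Q = MvPolynomial.aeval t P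
  norm : ∀ x : K', IsIntegral (Algebra.adjoin K (Set.range t)) x →
    x ∈ Algebra.adjoin K (Set.range t)
  der : ∀ (D : Derivation ℂ K K) (n : Fin p → ℂ), ∃ D' : Derivation ℂ K' K',
    (∀ x : K, D' (algebraMap K K' x) = algebraMap K K' (D x)) ∧ ∀ i, D' (t i) = n i • t i

section

variable {K K' : Type} [Field K] [Algebra ℂ K] [Field K'] [Algebra ℂ K'] [Algebra K K'] {p : ℕ}

/-- the monomial `t ^ n` -/
noncomputable def mon (t : Fin p → K') (n : Fin p → ℤ) : K' := ∏ i, t i ^ n i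

/-- the Laurent polynomial `∑ f n • t ^ n` -/
noncomputable def lau (t : Fin p → K') (f : (Fin p → ℤ) →₀ K) : K' :=
  f.sum fun n x => algebraMap K K' x * mon t n

/-- the Cox algebra -/
noncomputable def Cx (R : Subalgebra ℂ K) (u : Fin p → RVal K) (t : Fin p → K') :
    Subalgebra ℂ K' :=
  Algebra.adjoin ℂ {z | ∃ n : Fin p → ℤ, ∃ y ∈ Sd R u n, z = algebraMap K K' y * mon t n}

/-- the 1-form `df / f` -/
noncomputable def dlg (f : K) : Helper88.D4.One K where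
  toFun D := D f / f
  map_add' D E := by rw [Derivation.add_apply, add_div]
  map_smul' z D := by rw [Derivation.smul_apply, smul_eq_mul, smul_eq_mul, RingHom.id_apply,
    mul_div_assoc]

/-- `η'` is the pull-back of the 1-form `η` to `K'`. -/
def IsHat (J : Bra K) (η : Helper88.D4.One K) (η' : Helper88.D4.One K') : Prop :=
  ∀ z : Fin 4 → K, brk J z ≠ 0 → ∀ D : Derivation ℂ K' K',
    η' D = ∑ k, algebraMap K K' (η (dfr J z k)) * D (algebraMap K K' (z k))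

/-- `D'` extends `D`. -/
def Exd (D : Derivation ℂ K K) (D' : Derivation ℂ K' K') : Prop :=
  ∀ x : K, D' (algebraMap K K' x) = algebraMap K K' (D x)

end

/-! ## The pieces -/

/-- R1: the field of rational functions -/
def S_EXT : Prop := ∀ (K : Type) [Field K] [Algebra ℂ K] (p : ℕ), ∃ (K' : Type) (_ : Field K')
  (_ : Algebra ℂ K') (_ : Algebra K K') (t : Fin p → K'), Ext K t

/-- R2: Gauss valuations -/
def S_GV : Prop := ∀ (K K' : Type) [Field K] [Algebra ℂ K] [Field K'] [Algebra ℂ K']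
  [Algebra K K'] (p : ℕ) (t : Fin p → K'), Ext K t → ∀ (u : RVal K) (e : Fin p → ℝ),
    ∃ u' : RVal K', ∀ (f : (Fin p → ℤ) →₀ K) (c : ℝ),
      u'.Ge c (lau t f) ↔ ∀ n, u.Ge (c - ∑ i, n i * e i) (f n)

/-- R3: the Cox algebra is normal, and given by the valuations `g w` -/
def S_CX : Prop := ∀ (K K' : Type) [Field K] [Algebra ℂ K] [Field K'] [Algebra ℂ K']
  [Algebra K K'] (R : Subalgebra ℂ K) (p : ℕ) (t : Fin p → K') (u : Fin p → RVal K), Ext K t →
    IsFrac R → (∀ i, PDiv R (u i)) → (∀ i j, i ≠ j → Dist (u i) (u j)) →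
      IsFrac (Cx R u t) ∧ Normal (Cx R u t) ∧ ∃ g : RVal K → RVal K',
        (∀ w, PDiv R w → (∀ x, x ≠ 0 → (g w).val (algebraMap K K' x) = w.val x) ∧
          (∀ i, Dist w (u i) → (g w).val (t i) = 0) ∧
          (∀ i, ¬ Dist w (u i) → (g w).val (t i) = 1) ∧ ∀ x ∈ Cx R u t, (g w).Ge 0 x) ∧
        ∀ f : (Fin p → ℤ) →₀ K, (∀ w, PDiv R w → (g w).Ge 0 (lau t f)) → lau t f ∈ Cx R u t

/-- R4: generators which are homogeneous for the torus -/
def S_GENS : Prop := ∀ (K K' : Type) [Field K] [Algebra ℂ K] [Field K'] [Algebra ℂ K']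
  [Algebra K K'] (R : Subalgebra ℂ K) (ξ : Derivation ℂ K K) (r : ℕ)
  (H : Fin r → Derivation ℂ K K) (c : Fin r → ℝ), IsCone R ξ → Normal R → CoxFG R → Tor R ξ H c →
    ∀ (s : K) (χ : Fin r → ℤ), s ∈ R → s ≠ 0 → IsW H χ s → ∀ (p : ℕ) (t : Fin p → K')
      (u : Fin p → RVal K), Ext K t → (∀ i, PDiv R (u i)) → (∀ i j, i ≠ j → Dist (u i) (u j)) →
        (∀ i, 0 < (u i).val s) → ∃ (T : Finset (K × (Fin p → ℤ))) (m : K → Fin r → ℤ),
          (∀ g ∈ T, g.1 ∈ Sd R u g.2 ∧ g.1 ≠ 0 ∧ IsW H (m g.1) g.1 ∧ (g.2 = 0 → ¬ Cst g.1)) ∧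
          Cx R u t = Algebra.adjoin ℂ {z | ∃ g ∈ T, z = algebraMap K K' g.1 * mon t g.2}

/-- R5: a grading with positive degrees -/
def S_POS : Prop := ∀ (K : Type) [Field K] [Algebra ℂ K] (R : Subalgebra ℂ K)
  (ξ : Derivation ℂ K K) (r : ℕ) (H : Fin r → Derivation ℂ K K) (c : Fin r → ℝ), IsCone R ξ →
    Normal R → Tor R ξ H c → ∀ (p : ℕ) (u : Fin p → RVal K), (∀ i, PDiv R (u i)) →
      (∀ i j, i ≠ j → Dist (u i) (u j)) →
      (∀ (x : K) (n : Fin p → ℤ), x ≠ 0 → x ∈ Sd R u n → x⁻¹ ∈ Sd R u (-n) → n = 0) →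
        ∀ (T : Finset (K × (Fin p → ℤ))) (m : K → Fin r → ℤ),
          (∀ g ∈ T, g.1 ∈ Sd R u g.2 ∧ g.1 ≠ 0 ∧ IsW H (m g.1) g.1 ∧ (g.2 = 0 → ¬ Cst g.1)) →
            ∃ (lam : Fin r → ℤ) (mu : Fin p → ℤ), ∀ g ∈ T,
              0 < ∑ j, lam j * m g.1 j + ∑ i, mu i * g.2 i

/-- R6: the Cox algebra is a cone -/
def S_NC : Prop := ∀ (K K' : Type) [Field K] [Algebra ℂ K] [Field K'] [Algebra ℂ K']
  [Algebra K K'] (R : Subalgebra ℂ K) (r : ℕ) (H : Fin r → Derivation ℂ K K) (p : ℕ)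
  (t : Fin p → K') (u : Fin p → RVal K), Ext K t → IsFrac (Cx R u t) →
    ∀ (T : Finset (K × (Fin p → ℤ))) (m : K → Fin r → ℤ), (∀ g ∈ T, IsW H (m g.1) g.1) →
      Cx R u t = Algebra.adjoin ℂ {z | ∃ g ∈ T, z = algebraMap K K' g.1 * mon t g.2} →
        ∀ (lam : Fin r → ℤ) (mu : Fin p → ℤ),
          (∀ g ∈ T, 0 < ∑ j, lam j * m g.1 j + ∑ i, mu i * g.2 i) →
            ∀ (Z : Derivation ℂ K K) (Z' : Derivation ℂ K' K'),
              Z = ∑ j, ((lam j : ℤ) : ℂ) • H j → Exd Z Z' →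
                (∀ i, Z' (t i) = ((mu i : ℤ) : ℂ) • t i) → NCone (Cx R u t) Z'

/-- R7: the pull-back of a 1-form -/
def S_HAT : Prop := ∀ (K K' : Type) [Field K] [Algebra ℂ K] [Field K'] [Algebra ℂ K']
  [Algebra K K'], (∀ z : ℂ, algebraMap ℂ K' z = algebraMap K K' (algebraMap ℂ K z)) →
    ∀ (J : Bra K), Algebra.trdeg ℂ K = 4 → IsAlt J → ∀ η : Helper88.D4.One K,
      ∃ η' : Helper88.D4.One K', IsHat J η η' ∧ (∀ D D', Exd D D' →
        η' D' = algebraMap K K' (η D)) ∧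
        ∀ Z Z', Exd Z Z' → (∀ D, Z (η D) = η ⁅Z, D⁆) → ∀ D', Z' (η' D') = η' ⁅Z', D'⁆

/-- R8: the form is regular on the Cox algebra -/
def S_RG : Prop := ∀ (K K' : Type) [Field K] [Algebra ℂ K] [Field K'] [Algebra ℂ K']
  [Algebra K K'] (R : Subalgebra ℂ K) (ξ : Derivation ℂ K K) (J : Bra K) (a : ℝ), Cone4 R ξ J a →
    ∀ (p : ℕ) (t : Fin p → K') (u : Fin p → RVal K) (u₀ : RVal K), Ext K t →
      (∀ i, PDiv R (u i)) → PDiv R u₀ → (∀ i j, i ≠ j → Dist (u i) (u j)) →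
      (∀ i, Dist u₀ (u i)) → ∀ s ∈ R, s ≠ 0 → (∀ i, (u i).val s = 1) → u₀.val s = 1 →
      (∀ w, PDiv R w → w.val s = 0 ∨ ¬ Dist w u₀ ∨ ∃ i, ¬ Dist w (u i)) →
      ∀ (η : Helper88.D4.One K) (e₀ : ℂ) (e : Fin p → ℂ),
        (∀ w, PDiv R w → w.val s = 0 → ∀ D, Pres R D → w.Ge 0 (η D)) →
        (∀ D, Pres R D → u₀.Ge 0 (η D - e₀ • (D s / s))) →
        (∀ i D, Pres R D → (u i).Ge 0 (η D - e i • (D s / s))) →
          ∀ η' : Helper88.D4.One K', IsHat J η η' →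
            Reg1 (Cx R u t) (η' - e₀ • dlg (algebraMap K K' s) -
              ∑ i, (e i - e₀) • dlg (t i))

end Pool.Agent.Helper20.D4
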