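import Pool.Agent.Helper46.D4.Stmts

/-!
# Project D4, block B~ (MP_e1889a_ag): the pieces `S_AL` and `S_LB`
-/

set_option autoImplicit false

namespace Pool.Agent.Helper20.D4

open Module Filter Topology Polynomial Pool.Agent.Helper37.SD Pool.Agent.Helper20.TS
  Pool.Agent.Helper88.D4 Pool.Agent.Helper46.D4

variable {K : Type} [Field K] [Algebra ℂ K]

theorem self_neg {x : K} (h : x = -x) : x = 0 := by
  have : CharZero K := charZero_of_injective_algebraMap (algebraMap ℂ K).injective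
  have h2 : (2 : K) ≠ 0 := two_ne_zero
  have h3 : 2 * x = 0 := by
    rw [two_mul]
    nth_rewrite 1 [h]
    exact neg_add_cancel x
  exact (mul_eq_zero.mp h3).resolve_left h2

section Alt

variable {J : Bra K} (hJ : IsAlt J)

include hJ

/-- `[h, y, z, w] = - [y, h, z, w]`: the bracket as a derivation in `y` -/
theorem br1 (h y z w : K) : J y z w h = -J h z w y := hJ.s1 y h z w

theorem br2 (h y z w : K) : J y z w h = J h y w z := by
  have e1 : J y z w h = -J z y w h := by rw [hJ.s2 z y w]; simp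
  rw [e1, hJ.s1 z h y w, neg_neg]

theorem br3 (h y z w : K) : J y z w h = -J h y z w := by
  have e1 : J y z w h = -J y w z h := by rw [hJ.s3 y w z]; simp
  rw [e1, br2 hJ h y w z]

theorem br_h1 (h z w : K) : J h z w h = 0 := self_neg (hJ.s1 h h z w)

theorem br_h2 (h y w : K) : J y h w h = 0 := by
  have e : J y h w h = -J h y w h := by rw [hJ.s2 h y w]; simp
  rw [e, br_h1 hJ, neg_zero]

theorem br_h3 (h y z : K) : J y z h h = 0 := by
  have e : J y z h h = -J y h z h := by rw [hJ.s3 y h z]; simp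
  rw [e, br_h2 hJ, neg_zero]

end Alt

/-- a derivation of the subalgebra generated by two subalgebras -/
theorem pres_sup {A F : Subalgebra ℂ K} {D : Derivation ℂ K K} (hA : ∀ x ∈ A, D x ∈ A ⊔ F)
    (hF : ∀ x ∈ F, D x ∈ A ⊔ F) : ∀ x ∈ A ⊔ F, D x ∈ A ⊔ F := by
  let S : Subalgebra ℂ K :=
    { carrier := {x | x ∈ A ⊔ F ∧ D x ∈ A ⊔ F}
      mul_mem' := by
        rintro x y ⟨hx, hx'⟩ ⟨hy, hy'⟩
        refine ⟨mul_mem hx hy, ?_⟩
        rw [Derivation.leibniz, smul_eq_mul, smul_eq_mul]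
        exact add_mem (mul_mem hx hy') (mul_mem hy hx')
      add_mem' := by
        rintro x y ⟨hx, hx'⟩ ⟨hy, hy'⟩
        refine ⟨add_mem hx hy, ?_⟩
        rw [map_add]
        exact add_mem hx' hy'
      algebraMap_mem' := fun t => ⟨Subalgebra.algebraMap_mem _ t, by
        rw [Derivation.map_algebraMap]
        exact zero_mem _⟩ }
  have h : A ⊔ F ≤ S := sup_le (fun x hx => ⟨le_sup_left (a := A) (b := F) hx, hA x hx⟩)
    (fun x hx => ⟨le_sup_right (a := A) (b := F) hx, hF x hx⟩)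
  exact fun x hx => (h hx).2

/-- a derivation which kills `h` kills `ℂ(h)` -/
theorem ker_adj {D : Derivation ℂ K K} {h : K} (hD : D h = 0) :
    ∀ x ∈ IntermediateField.adjoin ℂ ({h} : Set K), D x = 0 := by
  let F : IntermediateField ℂ K :=
    { carrier := {x | D x = 0}
      mul_mem' := by
        intro x y hx hy
        simp only [Set.mem_ofPred_eq] at hx hy ⊢
        rw [Derivation.leibniz, hx, hy, smul_zero, smul_zero, add_zero]
      add_mem' := by
        intro x y hx hy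
        simp only [Set.mem_ofPred_eq] at hx hy ⊢
        rw [map_add, hx, hy, add_zero]
      algebraMap_mem' := fun t => Derivation.map_algebraMap D t
      inv_mem' := by
        intro x hx
        simp only [Set.mem_ofPred_eq] at hx ⊢
        change D x = 0 at hx
        rw [Derivation.leibniz_inv, hx, smul_zero] }
  have h : IntermediateField.adjoin ℂ ({h} : Set K) ≤ F := by
    rw [IntermediateField.adjoin_le_iff]
    intro x hx
    rw [Set.mem_singleton_iff] at hx
    subst hx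
    exact hD
  exact fun x hx => h hx

theorem der_mul_pow {D : Derivation ℂ K K} {h : K} (hD : D h = 0) (x : K) (n : ℕ) :
    D (x * h ^ n) = D x * h ^ n := by
  rw [Derivation.leibniz, Derivation.leibniz_pow, hD, smul_zero, smul_zero, smul_zero, zero_add,
    smul_eq_mul, mul_comm]

theorem der_div_pow {D : Derivation ℂ K K} {h : K} (hD : D h = 0) (h0 : h ≠ 0) (x : K) (n : ℕ) :
    D (x / h ^ n) = D x / h ^ n := by
  have e := der_mul_pow hD (x / h ^ n) n
  rw [div_mul_cancel₀ _ (pow_ne_zero n h0)] at e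
  rw [e, mul_div_cancel_right₀ _ (pow_ne_zero n h0)]

theorem core {R : Subalgebra ℂ K} {ξ : Derivation ℂ K K} {J : Bra K} {a : ℝ}
    (hc : Cone4 R ξ J a) {α : Helper88.D4.One K} {b h : K} (hα : ∀ D, α D = b * D h)
    (hreg : Reg1 R α) {y z w : K} {n₁ n₂ n₃ : ℕ} (hy : y ∈ Sj R h n₁) (hz : z ∈ Sj R h n₂)
    (hw : w ∈ Sj R h n₃) : b * J y z w h ∈ Sj R h (n₁ + n₂ + n₃) := by
  have key : ∀ y ∈ R, ∀ z ∈ R, ∀ w ∈ R, b * J y z w h ∈ R := fun y hy z hz w hw => by
    rw [← hα]
    exact hreg _ fun x hx => hc.reg x hx y hy z hz w hw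
  refine ⟨key y hy.1 z hz.1 w hw.1, ?_⟩
  have hJ := hc.alt
  have e1 : J (y * h ^ n₁) (z * h ^ n₂) (w * h ^ n₃) h = J y z w h * h ^ (n₁ + n₂ + n₃) := by
    rw [br1 hJ, der_mul_pow (br_h1 hJ h _ _), ← neg_mul, ← br1 hJ, br2 hJ,
      der_mul_pow (br_h1 hJ h _ _), ← br2 hJ, br3 hJ, der_mul_pow (br_h1 hJ h _ _), ← neg_mul,
      ← br3 hJ, pow_add, pow_add]
    ring
  have := key _ hy.2 _ hz.2 _ hw.2
  rw [e1] at this
  rwa [mul_assoc]

theorem s_AL : S_AL := by
  intro K _ _ R ξ J a hc α b h hα hreg φ j hφ h0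
  have hJ := hc.alt
  set A := slopeAlg R h φ j hφ h0 with hA
  set F := (IntermediateField.adjoin ℂ ({h} : Set K)).toSubalgebra with hF
  have hAh : Ah A h = A ⊔ F := rfl
  -- the case of the algebra of quotients
  have key : ∀ y ∈ A, ∀ z ∈ A, b / φ * J h φ z y ∈ A ⊔ F := by
    rintro _ ⟨l, y, hy, rfl⟩ _ ⟨n, z, hz, rfl⟩
    refine le_sup_left (a := A) (b := F) ⟨1 + l + n, b * J φ y z h, ?_, ?_⟩
    · have := core hc hα hreg (y := φ) (z := y) (w := z) hφ hy hz
      convert this using 2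
      ring
    · have e2 : J h φ (z / φ ^ n) φ = 0 := br_h2 hJ φ h _
      have e3 : J h φ y φ = 0 := br_h2 hJ φ h _
      rw [der_div_pow e2 h0, ← br2 hJ, br3 hJ, der_div_pow e3 h0, br3 hJ h φ y z, pow_add, pow_add,
        pow_one]
      field_simp
  have kF : ∀ (w : K), ∀ x ∈ F, b / φ * J h φ w x ∈ A ⊔ F := fun w x hx => by
    rw [ker_adj (br_h1 hJ h φ w) x hx, mul_zero]
    exact zero_mem _
  have key2 : ∀ z ∈ A, ∀ y ∈ A ⊔ F, b / φ * J h φ z y ∈ A ⊔ F := fun z hz =>
    pres_sup (D := (b / φ) • J h φ z) (fun y hy => key y hy z hz) (kF z)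
  have sw : ∀ y z, J h φ y z = -J h φ z y := fun y z => by
    have e1 := br2 hJ h φ y z
    have e2 := br3 hJ h φ y z
    rw [← e1, e2, neg_neg]
  have key3 : ∀ y ∈ A ⊔ F, ∀ z ∈ A ⊔ F, b / φ * J h φ y z ∈ A ⊔ F := fun y hy =>
    pres_sup (D := (b / φ) • J h φ y) (fun z hz => by
      change b / φ * J h φ y z ∈ A ⊔ F
      rw [sw, mul_neg]
      exact neg_mem (key2 z hz y hy)) (kF y)
  intro y hy z hz
  have e : b * J h y z φ / φ = b / φ * J h φ y z := by
    rw [br1 hJ φ h y z, br3 hJ h φ y z, neg_neg]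
    ring
  rw [e]
  exact key3 y hy z hz

theorem s_LB (hAL : S_AL) (hfr : S_LDfr) : S_LB := by
  intro K _ _ R ξ J a hc α b h hα hreg hb φ j hφ h0 u hu hpos hA y hy hR
  obtain ⟨h1, h2⟩ := hfr K J hc.trdeg hc.alt u hu (Fin.cons h y) hR φ h0 hpos
  have h1' : J h (y 0) (y 1) φ ≠ 0 := h1
  have h2' : LDLe J u (u.val φ - u.val (J h (y 0) (y 1) φ)) := h2
  have m := hAL K R ξ J a hc α b h hα hreg φ j hφ h0 (y 0) (hy 0) (y 1) (hy 1)
  have p := hA _ m (div_ne_zero (mul_ne_zero hb h1') h0)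
  have q : u.val (b * J h (y 0) (y 1) φ / φ) + u.val φ = u.val b + u.val (J h (y 0) (y 1) φ) := by
    rw [← u.map_mul _ _ (div_ne_zero (mul_ne_zero hb h1') h0) h0, div_mul_cancel₀ _ h0,
      u.map_mul _ _ hb h1']
  intro x z w t hx hz hw ht
  rcases h2' x z w t hx hz hw ht with r | r
  · exact Or.inl r
  · exact Or.inr (by linarith)

end Pool.Agent.Helper20.D4
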