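import Pool.Agent.Helper20.D4.RDefs
import Pool.Agent.Helper34.D4.Hv

/-!
# Project D4, the piece `S_RES`: Laurent polynomials
-/

set_option autoImplicit false
set_option linter.unusedSectionVars false

namespace Pool.Agent.Helper20.D4

open Module Pool.Agent.Helper37.SD Pool.Agent.Helper20.TS Pool.Agent.Helper88.D4

variable {K K' : Type} [Field K] [Algebra ℂ K] [Field K'] [Algebra ℂ K'] [Algebra K K'] {p : ℕ}
  {t : Fin p → K'}

theorem Ext.ne (hE : Ext K t) (i : Fin p) : t i ≠ 0 := hE.ind.ne_zero i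

theorem mon_zero : mon t 0 = 1 := by
  rw [mon]
  exact Finset.prod_eq_one fun i _ => by rw [Pi.zero_apply, zpow_zero]

theorem mon_add (ht : ∀ i, t i ≠ 0) (n m : Fin p → ℤ) : mon t (n + m) = mon t n * mon t m := by
  rw [mon, mon, mon, ← Finset.prod_mul_distrib]
  exact Finset.prod_congr rfl fun i _ => by rw [Pi.add_apply, zpow_add₀ (ht i)]

theorem mon_ne (ht : ∀ i, t i ≠ 0) (n : Fin p → ℤ) : mon t n ≠ 0 :=
  Finset.prod_ne_zero_iff.mpr fun i _ => zpow_ne_zero _ (ht i)

theorem mon_neg (ht : ∀ i, t i ≠ 0) (n : Fin p → ℤ) : mon t (-n) = (mon t n)⁻¹ := by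
  refine eq_inv_of_mul_eq_one_left ?_
  rw [← mon_add ht, neg_add_cancel, mon_zero]

theorem mon_single (i : Fin p) : mon t (Pi.single i 1) = t i := by
  rw [mon, Finset.prod_eq_single i]
  · rw [Pi.single_eq_same, zpow_one]
  · intro j _ hj
    rw [Pi.single_eq_of_ne hj, zpow_zero]
  · intro h
    exact absurd (Finset.mem_univ i) h

theorem mon_nat (n : Fin p →₀ ℕ) : mon t (fun i => (n i : ℤ)) = n.prod fun i k => t i ^ k := by
  rw [mon, Finsupp.prod_fintype _ _ fun i => pow_zero _]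
  exact Finset.prod_congr rfl fun i _ => zpow_natCast _ _

theorem lau_single (n : Fin p → ℤ) (x : K) :
    lau t (Finsupp.single n x) = algebraMap K K' x * mon t n := by
  rw [lau, Finsupp.sum_single_index]
  rw [map_zero, zero_mul]

theorem lau_zero : lau t (0 : (Fin p → ℤ) →₀ K) = 0 := Finsupp.sum_zero_index

theorem lau_add (f g : (Fin p → ℤ) →₀ K) : lau t (f + g) = lau t f + lau t g :=
  Finsupp.sum_add_index' (fun n => by rw [map_zero, zero_mul])
    (fun n x y => by rw [map_add, add_mul])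

theorem lau_sum {ι : Type} (s : Finset ι) (f : ι → (Fin p → ℤ) →₀ K) :
    lau t (∑ i ∈ s, f i) = ∑ i ∈ s, lau t (f i) := by
  classical
  induction s using Finset.induction_on with
  | empty => rw [Finset.sum_empty, Finset.sum_empty, lau_zero]
  | insert i s hi ih => rw [Finset.sum_insert hi, Finset.sum_insert hi, lau_add, ih]

theorem lau_smulK (z : K) (f : (Fin p → ℤ) →₀ K) :
    lau t (z • f) = algebraMap K K' z * lau t f := by
  rw [lau, lau, Finsupp.sum_smul_index' (fun n => by rw [map_zero, zero_mul]), Finsupp.sum,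
    Finsupp.sum, Finset.mul_sum]
  exact Finset.sum_congr rfl fun n _ => by rw [smul_eq_mul, map_mul, mul_assoc]

theorem lau_smul (hT : ∀ z : ℂ, algebraMap ℂ K' z = algebraMap K K' (algebraMap ℂ K z)) (z : ℂ)
    (f : (Fin p → ℤ) →₀ K) : lau t (z • f) = z • lau t f := by
  have e : z • f = (algebraMap ℂ K z) • f := by
    ext n
    rw [Finsupp.smul_apply, Finsupp.smul_apply, Algebra.smul_def, smul_eq_mul]
  rw [e, lau_smulK, Algebra.smul_def, hT]

/-- the product of Laurent polynomials -/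
noncomputable def conv (f g : (Fin p → ℤ) →₀ K) : (Fin p → ℤ) →₀ K :=
  f.sum fun a x => g.sum fun b y => Finsupp.single (a + b) (x * y)

theorem conv_apply (f g : (Fin p → ℤ) →₀ K) (n : Fin p → ℤ) :
    conv f g n = ∑ a ∈ f.support, f a * g (n - a) := by
  classical
  rw [conv, Finsupp.sum, Finsupp.finsetSum_apply]
  refine Finset.sum_congr rfl fun a _ => ?_
  rw [Finsupp.sum, Finsupp.finsetSum_apply]
  simp only [Finsupp.single_apply]
  rw [Finset.sum_eq_single (n - a)]
  · rw [if_pos (by abel)]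
  · intro b _ hb
    rw [if_neg]
    intro h
    apply hb
    rw [← h]
    abel
  · intro h
    rw [Finsupp.notMem_support_iff] at h
    rw [h, mul_zero]
    split_ifs <;> rfl

theorem lau_mul (hE : Ext K t) (f g : (Fin p → ℤ) →₀ K) :
    lau t f * lau t g = lau t (conv f g) := by
  have ht := hE.ne
  rw [conv, Finsupp.sum, lau_sum, lau, Finsupp.sum, Finset.sum_mul]
  refine Finset.sum_congr rfl fun a _ => ?_
  rw [Finsupp.sum, lau_sum, lau, Finsupp.sum, Finset.mul_sum]
  refine Finset.sum_congr rfl fun b _ => ?_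
  rw [lau_single, mon_add ht, map_mul]
  ring

/-- the Laurent polynomial of a polynomial -/
noncomputable def ofPoly (P : MvPolynomial (Fin p) K) : (Fin p → ℤ) →₀ K :=
  ∑ n ∈ P.support, Finsupp.single (fun i => (n i : ℤ)) (P.coeff n)

theorem lau_ofPoly (P : MvPolynomial (Fin p) K) : lau t (ofPoly P) = MvPolynomial.aeval t P := by
  rw [ofPoly, lau_sum, MvPolynomial.aeval_def, MvPolynomial.eval₂_eq']
  refine Finset.sum_congr rfl fun n _ => ?_
  rw [lau_single, mon]
  simp only [zpow_natCast]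

/-- a Laurent polynomial multiplied by a power of the product of the variables is a polynomial -/
theorem exists_poly (ht : ∀ i, t i ≠ 0) (f : (Fin p → ℤ) →₀ K) :
    ∃ (M : ℕ) (P : MvPolynomial (Fin p) K), MvPolynomial.aeval t P = lau t f * (∏ i, t i) ^ M ∧
      (P = 0 → f = 0) := by
  classical
  obtain ⟨M, hM⟩ : ∃ M : ℕ, ∀ n ∈ f.support, ∀ i, 0 ≤ n i + M := by
    refine ⟨∑ n ∈ f.support, ∑ i, (n i).natAbs, fun n hn i => ?_⟩
    have h1 : (n i).natAbs ≤ ∑ i, (n i).natAbs :=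
      Finset.single_le_sum (f := fun i => (n i).natAbs) (fun _ _ => Nat.zero_le _)
        (Finset.mem_univ i)
    have h2 : ∑ i, (n i).natAbs ≤ ∑ n ∈ f.support, ∑ i, (n i).natAbs :=
      Finset.single_le_sum (f := fun n : Fin p → ℤ => ∑ i, (n i).natAbs)
        (fun _ _ => Nat.zero_le _) hn
    omega
  let sh : (Fin p → ℤ) → (Fin p →₀ ℕ) := fun n =>
    Finsupp.equivFunOnFinite.symm fun i => (n i + M).toNat
  have hsh : ∀ n i, sh n i = (n i + M).toNat := fun n i => rfl
  have hinj : ∀ n ∈ f.support, ∀ m ∈ f.support, sh n = sh m → n = m := by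
    intro n hn m hm h
    funext i
    have h1 : (n i + M).toNat = (m i + M).toNat := by rw [← hsh, ← hsh, h]
    have h2 := hM n hn i
    have h3 := hM m hm i
    omega
  refine ⟨M, ∑ n ∈ f.support, MvPolynomial.monomial (sh n) (f n), ?_, ?_⟩
  · rw [map_sum, lau, Finsupp.sum, Finset.sum_mul]
    refine Finset.sum_congr rfl fun n hn => ?_
    rw [MvPolynomial.aeval_monomial, Finsupp.prod_fintype _ _ fun i => pow_zero _, mon, mul_assoc,
      ← Finset.prod_pow, ← Finset.prod_mul_distrib]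
    congr 1
    refine Finset.prod_congr rfl fun i _ => ?_
    rw [hsh, ← zpow_natCast, ← zpow_natCast, ← zpow_add₀ (ht i), Int.toNat_of_nonneg (hM n hn i)]
  · intro h
    ext n
    by_cases hn : n ∈ f.support
    · have h1 := congrArg (MvPolynomial.coeff (sh n)) h
      rw [MvPolynomial.coeff_sum, MvPolynomial.coeff_zero] at h1
      rw [Finset.sum_eq_single n] at h1
      · rwa [MvPolynomial.coeff_monomial, if_pos rfl] at h1
      · intro m hm hmn
        rw [MvPolynomial.coeff_monomial, if_neg]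
        intro e
        exact hmn (hinj m hm n hn e)
      · intro h2
        exact absurd hn h2
    · exact Finsupp.notMem_support_iff.mp hn

theorem lau_inj (hE : Ext K t) {f : (Fin p → ℤ) →₀ K} (h : lau t f = 0) : f = 0 := by
  obtain ⟨M, P, h1, h2⟩ := exists_poly hE.ne f
  rw [h, zero_mul] at h1
  exact h2 ((algebraicIndependent_iff.mp hE.ind) P h1)

theorem lau_sub (f g : (Fin p → ℤ) →₀ K) : lau t (f - g) = lau t f - lau t g := by
  rw [eq_sub_iff_add_eq, ← lau_add, sub_add_cancel]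

theorem lau_injective (hE : Ext K t) {f g : (Fin p → ℤ) →₀ K} (h : lau t f = lau t g) : f = g := by
  rw [← sub_eq_zero]
  apply lau_inj hE
  rw [lau_sub, h, sub_self]

theorem ofPoly_ne (hE : Ext K t) {P : MvPolynomial (Fin p) K} (hP : P ≠ 0) :
    lau t (ofPoly P) ≠ 0 := by
  rw [lau_ofPoly]
  exact fun h => hP ((algebraicIndependent_iff.mp hE.ind) P h)

theorem exists_lau (hE : Ext K t) (x : K') : ∃ f g : (Fin p → ℤ) →₀ K, lau t g ≠ 0 ∧
    x * lau t g = lau t f := by
  obtain ⟨P, Q, hQ, h⟩ := hE.frac x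
  exact ⟨ofPoly P, ofPoly Q, ofPoly_ne hE hQ, by rw [lau_ofPoly, lau_ofPoly, h]⟩

/-- the algebra of Laurent polynomials -/
noncomputable def La (hE : Ext K t) : Subalgebra ℂ K' where
  carrier := {x | ∃ f : (Fin p → ℤ) →₀ K, x = lau t f}
  mul_mem' := by
    rintro _ _ ⟨f, rfl⟩ ⟨g, rfl⟩
    exact ⟨conv f g, lau_mul hE f g⟩
  add_mem' := by
    rintro _ _ ⟨f, rfl⟩ ⟨g, rfl⟩
    exact ⟨f + g, (lau_add f g).symm⟩
  algebraMap_mem' z := ⟨Finsupp.single 0 (algebraMap ℂ K z), by
    rw [lau_single, mon_zero, mul_one, hE.tower]⟩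

theorem mem_La {hE : Ext K t} {x : K'} : x ∈ La hE ↔ ∃ f : (Fin p → ℤ) →₀ K, x = lau t f :=
  Iff.rfl

theorem lau_mem_La (hE : Ext K t) (f : (Fin p → ℤ) →₀ K) : lau t f ∈ La hE := ⟨f, rfl⟩

theorem algebraMap_mem_La (hE : Ext K t) (x : K) : algebraMap K K' x ∈ La hE :=
  ⟨Finsupp.single 0 x, by rw [lau_single, mon_zero, mul_one]⟩

theorem mon_mem_La (hE : Ext K t) (n : Fin p → ℤ) : mon t n ∈ La hE :=
  ⟨Finsupp.single n 1, by rw [lau_single, map_one, one_mul]⟩

theorem t_mem_La (hE : Ext K t) (i : Fin p) : t i ∈ La hE := by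
  rw [← mon_single (t := t) i]
  exact mon_mem_La hE _

theorem t_inv_mem_La (hE : Ext K t) (i : Fin p) : (t i)⁻¹ ∈ La hE := by
  rw [← mon_single (t := t) i, ← mon_neg hE.ne]
  exact mon_mem_La hE _

/-- the algebra of polynomials -/
noncomputable def Pa (hE : Ext K t) : Subalgebra ℂ K' where
  carrier := {x | ∃ P : MvPolynomial (Fin p) K, x = MvPolynomial.aeval t P}
  mul_mem' := by
    rintro _ _ ⟨f, rfl⟩ ⟨g, rfl⟩
    exact ⟨f * g, (map_mul _ _ _).symm⟩
  add_mem' := by
    rintro _ _ ⟨f, rfl⟩ ⟨g, rfl⟩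
    exact ⟨f + g, (map_add _ _ _).symm⟩
  algebraMap_mem' z := ⟨MvPolynomial.C (algebraMap ℂ K z), by
    rw [MvPolynomial.aeval_C, hE.tower]⟩

theorem mem_adjoin_iff (x : K') : x ∈ Algebra.adjoin K (Set.range t) ↔
    ∃ P : MvPolynomial (Fin p) K, x = MvPolynomial.aeval t P := by
  rw [Algebra.adjoin_range_eq_range_aeval]
  constructor
  · rintro ⟨P, hP⟩
    exact ⟨P, hP.symm⟩
  · rintro ⟨P, hP⟩
    exact ⟨P, hP.symm⟩

theorem Pa_normal (hE : Ext K t) : Normal (Pa hE) := by
  intro x hx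
  obtain ⟨q, hq, hqx⟩ := hx
  refine (mem_adjoin_iff x).mp (hE.norm x ?_)
  let φ : Pa hE →+* Algebra.adjoin K (Set.range t) :=
    { toFun := fun y => ⟨(y : K'), (mem_adjoin_iff _).mpr y.2⟩
      map_one' := rfl
      map_mul' := fun _ _ => rfl
      map_zero' := rfl
      map_add' := fun _ _ => rfl }
  refine ⟨q.map φ, hq.map φ, ?_⟩
  rw [Polynomial.eval₂_map]
  exact hqx

theorem prod_ne (hE : Ext K t) : ∏ i, t i ≠ 0 := Finset.prod_ne_zero_iff.mpr fun i _ => hE.ne i

theorem mon_const (M : ℤ) : mon t (fun _ => M) = (∏ i, t i) ^ M := by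
  rw [mon, Finset.prod_zpow]

theorem mem_La_iff (hE : Ext K t) (x : K') : x ∈ La hE ↔
    x ∈ Pool.Agent.Helper34.D4.away (Pa hE) (∏ i, t i) := by
  have hs : ∏ i, t i ∈ Pa hE := ⟨∏ i, MvPolynomial.X i, by
    rw [map_prod]
    exact Finset.prod_congr rfl fun i _ => by rw [MvPolynomial.aeval_X]⟩
  rw [Pool.Agent.Helper34.D4.mem_away_iff hs (prod_ne hE)]
  constructor
  · rintro ⟨f, rfl⟩
    obtain ⟨M, P, h1, -⟩ := exists_poly hE.ne f
    exact ⟨M, P, h1.symm⟩
  · rintro ⟨N, P, h⟩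
    have e : x = lau t (ofPoly P) * mon t (fun _ => -(N : ℤ)) := by
      rw [lau_ofPoly, ← h, mon_const, zpow_neg, zpow_natCast, mul_assoc,
        mul_inv_cancel₀ (pow_ne_zero _ (prod_ne hE)), mul_one]
    rw [e]
    exact (La hE).mul_mem (lau_mem_La hE _) (mon_mem_La hE _)

theorem La_normal (hE : Ext K t) : Normal (La hE) := by
  have hs : ∏ i, t i ∈ Pa hE := ⟨∏ i, MvPolynomial.X i, by
    rw [map_prod]
    exact Finset.prod_congr rfl fun i _ => by rw [MvPolynomial.aeval_X]⟩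
  have e : La hE = Pool.Agent.Helper34.D4.away (Pa hE) (∏ i, t i) :=
    SetLike.ext fun x => mem_La_iff hE x
  rw [e]
  exact Pool.Agent.Helper34.D4.away_normal (Pa_normal hE) hs (prod_ne hE)

/-! ### The Cox algebra -/

section Cox

variable {R : Subalgebra ℂ K} {u : Fin p → RVal K}

theorem ge_mul (w : RVal K) {a b : ℝ} {x y : K} (hx : w.Ge a x) (hy : w.Ge b y) :
    w.Ge (a + b) (x * y) := by
  rcases hx with rfl | hx
  · exact Or.inl (zero_mul _)
  rcases hy with rfl | hy
  · exact Or.inl (mul_zero _)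
  by_cases h0 : x = 0
  · subst h0
    exact Or.inl (zero_mul _)
  by_cases h1 : y = 0
  · subst h1
    exact Or.inl (mul_zero _)
  refine Or.inr ?_
  rw [w.map_mul _ _ h0 h1]
  linarith

theorem Sd_mul {n m : Fin p → ℤ} {x y : K} (hx : x ∈ Sd R u n) (hy : y ∈ Sd R u m) :
    x * y ∈ Sd R u (n + m) := by
  refine ⟨fun i => ?_, fun w hw h => ?_⟩
  · have := ge_mul (u i) (hx.1 i) (hy.1 i)
    convert this using 1
    rw [Pi.add_apply]
    push_cast
    ring
  · have := ge_mul w (hx.2 w hw h) (hy.2 w hw h)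
    rwa [add_zero] at this

theorem Sd_const (z : ℂ) : algebraMap ℂ K z ∈ Sd R u 0 := by
  by_cases hz : z = 0
  · rw [hz, map_zero]
    exact Submodule.zero_mem _
  refine ⟨fun i => Or.inr ?_, fun w _ _ => Or.inr ?_⟩
  · rw [(u i).map_const z hz, Pi.zero_apply, Int.cast_zero, neg_zero]
  · rw [w.map_const z hz]

theorem mem_Cx (hE : Ext K t) {x : K'} : x ∈ Cx R u t ↔
    ∃ f : (Fin p → ℤ) →₀ K, (∀ n, f n ∈ Sd R u n) ∧ x = lau t f := by
  classical
  constructor
  · let W : Subalgebra ℂ K' :=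
      { carrier := {x | ∃ f : (Fin p → ℤ) →₀ K, (∀ n, f n ∈ Sd R u n) ∧ x = lau t f}
        mul_mem' := by
          rintro _ _ ⟨f, hf, rfl⟩ ⟨g, hg, rfl⟩
          refine ⟨conv f g, fun n => ?_, lau_mul hE f g⟩
          rw [conv_apply]
          refine Submodule.sum_mem _ fun a _ => ?_
          have := Sd_mul (hf a) (hg (n - a))
          rwa [add_sub_cancel] at this
        add_mem' := by
          rintro _ _ ⟨f, hf, rfl⟩ ⟨g, hg, rfl⟩
          exact ⟨f + g, fun n => Submodule.add_mem _ (hf n) (hg n), (lau_add f g).symm⟩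
        algebraMap_mem' := fun z => ⟨Finsupp.single 0 (algebraMap ℂ K z), fun n => by
          rw [Finsupp.single_apply]
          split_ifs with h
          · rw [← h]
            exact Sd_const z
          · exact Submodule.zero_mem _, by rw [lau_single, mon_zero, mul_one, hE.tower]⟩ }
    have hW : Cx R u t ≤ W := by
      refine Algebra.adjoin_le ?_
      rintro _ ⟨n, y, hy, rfl⟩
      refine ⟨Finsupp.single n y, fun m => ?_, (lau_single n y).symm⟩
      rw [Finsupp.single_apply]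
      split_ifs with h
      · rw [← h]
        exact hy
      · exact Submodule.zero_mem _
    exact fun hx => hW hx
  · rintro ⟨f, hf, rfl⟩
    rw [lau, Finsupp.sum]
    exact Subalgebra.sum_mem _ fun n _ => Algebra.subset_adjoin ⟨n, f n, hf n, rfl⟩

theorem lau_mem_Cx (hE : Ext K t) {f : (Fin p → ℤ) →₀ K} :
    lau t f ∈ Cx R u t ↔ ∀ n, f n ∈ Sd R u n := by
  rw [mem_Cx hE]
  constructor
  · rintro ⟨g, hg, h⟩
    rw [lau_injective hE h]
    exact hg
  · intro h
    exact ⟨f, h, rfl⟩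

theorem mul_mon_mem_Cx {n : Fin p → ℤ} {y : K} (hy : y ∈ Sd R u n) :
    algebraMap K K' y * mon t n ∈ Cx R u t := Algebra.subset_adjoin ⟨n, y, hy, rfl⟩

theorem Cx_le_La (hE : Ext K t) : Cx R u t ≤ La hE := by
  intro x hx
  obtain ⟨f, -, h⟩ := (mem_Cx hE).mp hx
  exact ⟨f, h⟩

theorem mem_Sd_of_nonneg (hu : ∀ i, PDiv R (u i)) {n : Fin p → ℤ} (hn : ∀ i, 0 ≤ n i) {x : K}
    (hx : x ∈ R) : x ∈ Sd R u n := by
  by_cases h0 : x = 0
  · rw [h0]
    exact Submodule.zero_mem _
  refine ⟨fun i => Or.inr ?_, fun w hw _ => Or.inr (hw.nonneg x hx h0)⟩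
  have h1 := (hu i).nonneg x hx h0
  have h2 : (0 : ℝ) ≤ n i := by exact_mod_cast hn i
  linarith

theorem R_mem_Cx (hu : ∀ i, PDiv R (u i)) {x : K} (hx : x ∈ R) :
    algebraMap K K' x ∈ Cx R u t := by
  have := mul_mon_mem_Cx (t := t) (mem_Sd_of_nonneg hu (n := 0) (fun _ => le_rfl) hx)
  rwa [mon_zero, mul_one] at this

theorem t_mem_Cx (hu : ∀ i, PDiv R (u i)) (i : Fin p) : t i ∈ Cx R u t := by
  classical
  have := mul_mon_mem_Cx (t := t) (mem_Sd_of_nonneg hu (n := Pi.single i 1) (fun j => by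
    by_cases h : j = i
    · rw [h, Pi.single_eq_same]
      exact zero_le_one
    · rw [Pi.single_eq_of_ne h]) R.one_mem)
  rwa [mon_single, map_one, one_mul] at this

end Cox

/-! ### Derivations -/

theorem der_zpow (D : Derivation ℂ K' K') {x : K'} {m : K'} (hx : x ≠ 0) (hD : D x = m * x)
    (n : ℤ) : D (x ^ n) = (n : K') * m * x ^ n := by
  have hnat : ∀ k : ℕ, D (x ^ k) = (k : K') * m * x ^ k := by
    intro k
    induction k with
    | zero => rw [pow_zero, Derivation.map_one_eq_zero, Nat.cast_zero, zero_mul, zero_mul]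
    | succ k ih =>
      rw [pow_succ, Derivation.leibniz, ih, hD, smul_eq_mul, smul_eq_mul, Nat.cast_succ]
      ring
  obtain ⟨k, rfl | rfl⟩ := n.eq_nat_or_neg
  · rw [zpow_natCast, hnat, Int.cast_natCast]
  · rw [zpow_neg, zpow_natCast, Derivation.leibniz_inv, hnat, smul_eq_mul, Int.cast_neg,
      Int.cast_natCast]
    field_simp

theorem der_mon {Z' : Derivation ℂ K' K'} {mu : Fin p → K'} (ht : ∀ i, t i ≠ 0)
    (hZ : ∀ i, Z' (t i) = mu i * t i) (n : Fin p → ℤ) :
    Z' (mon t n) = (∑ i, (n i : K') * mu i) * mon t n := by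
  classical
  rw [mon]
  have key : ∀ s : Finset (Fin p), Z' (∏ i ∈ s, t i ^ n i) =
      (∑ i ∈ s, (n i : K') * mu i) * ∏ i ∈ s, t i ^ n i := by
    intro s
    induction s using Finset.induction_on with
    | empty => rw [Finset.prod_empty, Finset.sum_empty, zero_mul, Derivation.map_one_eq_zero]
    | insert i s hi ih =>
      rw [Finset.prod_insert hi, Finset.sum_insert hi, Derivation.leibniz, ih,
        der_zpow Z' (ht i) (hZ i), smul_eq_mul, smul_eq_mul]
      ring
  exact key _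

end Pool.Agent.Helper20.D4
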