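import Pool.Agent.Helper20.D4.Lau

/-!
# Project D4, the piece `S_RES`: the assembly
-/

set_option autoImplicit false
set_option linter.unusedSectionVars false

namespace Pool.Agent.Helper20.D4

open Module Pool.Agent.Helper37.SD Pool.Agent.Helper20.TS Pool.Agent.Helper88.D4

/-- the finitely many prime divisors through `s` -/
def S_FIN : Prop := ∀ (K : Type) [Field K] [Algebra ℂ K] (R : Subalgebra ℂ K)
  (ξ : Derivation ℂ K K), IsCone R ξ → ∀ s ∈ R, s ≠ 0 →
    (∀ u, PDiv R u → u.val s = 0 ∨ u.val s = 1) → ∀ u₀, PDiv R u₀ → u₀.val s = 1 →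
      ∃ (p : ℕ) (u : Fin p → RVal K), (∀ i, PDiv R (u i)) ∧ (∀ i j, i ≠ j → Dist (u i) (u j)) ∧
        (∀ i, Dist u₀ (u i)) ∧ (∀ i, (u i).val s = 1) ∧
        ∀ w, PDiv R w → w.val s = 0 ∨ ¬ Dist w u₀ ∨ ∃ i, ¬ Dist w (u i)

/-- uniqueness of the residue -/
def S_UQ : Prop := ∀ (K : Type) [Field K] [Algebra ℂ K] (R : Subalgebra ℂ K)
  (ξ : Derivation ℂ K K) (J : Bra K) (a : ℝ), Cone4 R ξ J a → ∀ (u u' : RVal K), PDiv R u →
    ¬ Dist u' u → ∀ s : K, s ≠ 0 → u.val s = 1 → ∀ (η : Helper88.D4.One K) (e e' : ℂ),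
      (∀ D, Pres R D → u.Ge 0 (η D - e • (D s / s))) →
      (∀ D, Pres R D → u'.Ge 0 (η D - e' • (D s / s))) → e' = e

section

variable {K : Type} [Field K] [Algebra ℂ K]

theorem dlg_apply (f : K) (D : Derivation ℂ K K) : dlg f D = D f / f := rfl

/-- `df / f` is invariant if `f` is homogeneous -/
theorem dlg_inv {Z D : Derivation ℂ K K} {f : K} (hf : f ≠ 0) {c : ℂ} (h : Z f = c • f) :
    Z (dlg f D) = dlg f ⁅Z, D⁆ := by
  rw [dlg_apply, dlg_apply, der_div Z _ _ hf, Derivation.commutator_apply, h,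
    Derivation.map_smul, Algebra.smul_def, Algebra.smul_def]
  field_simp

end

theorem s_RES_of (hFIN : S_FIN) (hUQ : S_UQ) (hEXT : S_EXT) (hCX : S_CX) (hGENS : S_GENS)
    (hPOS : S_POS) (hNC : S_NC) (hHAT : S_HAT) (hRG : S_RG) : S_RES := by
  intro K _ _ R ξ J a r H c hC hCox hT s χ hs hs0 hχ h01 η hinv hcst e hres
  classical
  by_contra hcon
  rw [not_or] at hcon
  obtain ⟨hcon1, hno⟩ := hcon
  push Not at hcon1
  obtain ⟨u₀, u₁, hu₀, hu₁, h0, h1, hne⟩ := hcon1
  obtain ⟨p, u, hu, hdist, hdist0, hus, hcov⟩ := hFIN K R ξ hC.toIsCone s hs hs0 h01 u₀ hu₀ h0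
  -- it is enough to compare `u₀` with the `u i`
  obtain ⟨i₁, hi₁⟩ : ∃ i, e (u i) ≠ e u₀ := by
    rcases hcov u₁ hu₁ with h2 | h2 | ⟨i, h2⟩
    · rw [h1] at h2
      exact absurd h2 one_ne_zero
    · exact absurd (hUQ K R ξ J a hC u₀ u₁ hu₀ h2 s hs0 h0 η (e u₀) (e u₁) (hres u₀ hu₀)
        (hres u₁ hu₁)).symm hne
    · refine ⟨i, fun h3 => hne ?_⟩
      rw [hUQ K R ξ J a hC (u i) u₁ (hu i) h2 s hs0 (hus i) η (e (u i)) (e u₁) (hres _ (hu i))
        (hres u₁ hu₁), h3]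
  obtain ⟨K', iF, iA, iAK, t, hE⟩ := hEXT K p
  have hT' := hE.tower
  obtain ⟨hfrac, hnorm, -⟩ := hCX K K' R p t u hE hC.frac hu hdist
  obtain ⟨T, m, hTm, hTC⟩ := hGENS K K' R ξ r H c hC.toIsCone hC.normal hCox hT s χ hs hs0 hχ p t u
    hE hu hdist (fun i => by rw [hus i]; exact one_pos)
  -- the Cox algebra has no units except constants
  have hunit : ∀ (x : K) (n : Fin p → ℤ), x ≠ 0 → x ∈ Sd R u n → x⁻¹ ∈ Sd R u (-n) → n = 0 := by
    intro x n hx0 hx hx'
    by_contra hn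
    apply hno
    have key : ∀ w, PDiv R w → (∀ i, Dist w (u i)) → w.val x = 0 := by
      intro w hw hwd
      have e1 := (hx.2 w hw hwd).resolve_left hx0
      have e2 := (hx'.2 w hw hwd).resolve_left (inv_ne_zero hx0)
      rw [w.val_inv hx0] at e2
      linarith
    obtain ⟨i, hi⟩ := Function.ne_iff.mp hn
    refine ⟨x, hx0, fun w hw hws => key w hw fun i => ?_, u₀, u i, hu₀, hu i, h0, hus i, ?_⟩
    · refine ⟨s, hs0, ?_⟩
      rw [hws, hus i]
      exact zero_ne_one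
    · rw [key u₀ hu₀ hdist0]
      have e1 := (hx.1 i).resolve_left hx0
      have e2 := (hx'.1 i).resolve_left (inv_ne_zero hx0)
      rw [(u i).val_inv hx0, Pi.neg_apply, Int.cast_neg, neg_neg] at e2
      intro h3
      apply hi
      have h4 : ((n i : ℤ) : ℝ) = 0 := by linarith
      exact_mod_cast h4
  obtain ⟨lam, mu, hpos⟩ := hPOS K R ξ r H c hC.toIsCone hC.normal hT p u hu hdist hunit T m hTm
  obtain ⟨η', hη'1, hη'2, hη'3⟩ := hHAT K K' hT' J hC.trdeg hC.alt η
  set s' : K' := algebraMap K K' s with hs'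
  have hs'0 : s' ≠ 0 := (map_ne_zero _).mpr hs0
  set η'' : Helper88.D4.One K' := η' - e u₀ • dlg s' - ∑ i, (e (u i) - e u₀) • dlg (t i) with hη''
  have hreg : Reg1 (Cx R u t) η'' := by
    refine hRG K K' R ξ J a hC p t u u₀ hE hu hu₀ hdist hdist0 s hs hs0 hus h0 hcov η (e u₀)
      (fun i => e (u i)) ?_ (hres u₀ hu₀) (fun i => hres _ (hu i)) η' hη'1
    intro w hw hws D hD
    have e1 := hres w hw D hD
    have e2 : w.Ge 0 (e w • (D s / s)) := by
      refine w.ge_smul _ ?_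
      by_cases h2 : D s = 0
      · left
        rw [h2, zero_div]
      · right
        rw [w.val_div h2 hs0, hws, sub_zero]
        exact hw.nonneg _ (hD s hs) h2
    have e3 := w.ge_add e1 e2
    rwa [sub_add_cancel] at e3
  have happ : ∀ D, η'' D = η' D - e u₀ • (D s' / s') -
      ∑ i, (e (u i) - e u₀) • (D (t i) / t i) := by
    intro D
    rw [hη'', LinearMap.sub_apply, LinearMap.sub_apply, LinearMap.smul_apply, LinearMap.sum_apply]
    rfl
  -- the value of the form at a one-parameter group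
  have key : ∀ (lam : Fin r → ℤ) (mu : Fin p → ℤ),
      (∀ g ∈ T, 0 < ∑ j, lam j * m g.1 j + ∑ i, mu i * g.2 i) →
      η (∑ j, ((lam j : ℤ) : ℂ) • H j) - e u₀ • ((∑ j, ((lam j : ℤ) : ℂ) • H j :
        Derivation ℂ K K) s / s) =
        algebraMap ℂ K (∑ i, (e (u i) - e u₀) * ((mu i : ℤ) : ℂ)) := by
    intro lam mu hpos
    set Z : Derivation ℂ K K := ∑ j, ((lam j : ℤ) : ℂ) • H j with hZ
    obtain ⟨Z', hZ'1, hZ'2⟩ := hE.der Z fun i => ((mu i : ℤ) : ℂ)
    have hcone := hNC K K' R r H p t u hE hfrac T m (fun g hg => (hTm g hg).2.2.1) hTC lam mu hpos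
      Z Z' hZ hZ'1 hZ'2
    have hZinv : ∀ D, Z (η D) = η ⁅Z, D⁆ := by
      intro D
      rw [hZ, der_sum_apply, sum_lie, map_sum]
      refine Finset.sum_congr rfl fun i _ => ?_
      rw [Derivation.smul_apply, hinv, smul_lie, LinearMap.map_smul_of_tower]
    have hZs : Z s = (∑ j, ((lam j : ℤ) : ℂ) * ((χ j : ℤ) : ℂ)) • s := by
      rw [hZ, der_sum_apply, Finset.sum_smul]
      refine Finset.sum_congr rfl fun i _ => ?_
      rw [Derivation.smul_apply, hχ i, smul_smul]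
    have hZ's : Z' s' = (∑ j, ((lam j : ℤ) : ℂ) * ((χ j : ℤ) : ℂ)) • s' := by
      rw [hs', hZ'1, hZs, Algebra.smul_def, map_mul, Algebra.smul_def, hT']
    have hval : η'' Z' = algebraMap K K' (η Z - e u₀ • (Z s / s) -
        algebraMap ℂ K (∑ i, (e (u i) - e u₀) * ((mu i : ℤ) : ℂ))) := by
      rw [happ, hη'2 Z Z' hZ'1, hs', hZ'1, ← map_div₀, Algebra.smul_def, hT', ← map_mul,
        ← Algebra.smul_def, map_sub, map_sub]
      congr 1
      rw [map_sum, map_sum]
      refine Finset.sum_congr rfl fun i _ => ?_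
      rw [hZ'2 i, smul_div_assoc, div_self (hE.ne i), smul_smul, Algebra.smul_def, mul_one, hT']
    have hcst' : Cst (η'' Z') := by
      have e1 : Cst (η Z) := by
        choose x hx using hcst
        refine ⟨∑ i, ((lam i : ℤ) : ℂ) * x i, ?_⟩
        rw [hZ, map_sum, map_sum]
        refine Finset.sum_congr rfl fun i _ => ?_
        rw [LinearMap.map_smul_of_tower, hx, map_mul, Algebra.smul_def]
      obtain ⟨x, hx⟩ := e1
      refine ⟨x - e u₀ * (∑ j, ((lam j : ℤ) : ℂ) * ((χ j : ℤ) : ℂ)) -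
        ∑ i, (e (u i) - e u₀) * ((mu i : ℤ) : ℂ), ?_⟩
      rw [hval, hT', hx, hZs, smul_div_assoc, div_self hs0, smul_smul, Algebra.smul_def, mul_one,
        ← map_sub, ← map_sub]
    have hinv' : ∀ D, Z' (η'' D) = η'' ⁅Z', D⁆ := by
      intro D
      rw [happ, happ, map_sub, map_sub, hη'3 Z Z' hZ'1 hZinv, map_sum, Derivation.map_smul]
      have e1 := dlg_inv (D := D) hs'0 hZ's
      rw [dlg_apply, dlg_apply] at e1
      rw [e1]
      congr 1
      refine Finset.sum_congr rfl fun i _ => ?_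
      rw [Derivation.map_smul]
      have e2 := dlg_inv (D := D) (hE.ne i) (hZ'2 i)
      rw [dlg_apply, dlg_apply] at e2
      rw [e2]
    have h2 := Pool.Agent.Helper34.D4.one_zero hcone hnorm η'' hreg hinv' hcst'
    rw [hval] at h2
    have h3 := (map_eq_zero (algebraMap K K')).mp h2
    exact sub_eq_zero.mp h3
  -- compare two one-parameter groups
  obtain ⟨M, hM⟩ : ∃ M : ℤ, ∀ g ∈ T, |g.2 i₁| < M := by
    refine ⟨∑ g ∈ T, |g.2 i₁| + 1, fun g hg => ?_⟩
    have := Finset.single_le_sum (f := fun g : K × (Fin p → ℤ) => |g.2 i₁|)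
      (fun _ _ => abs_nonneg _) hg
    have h2 : |g.2 i₁| ≤ ∑ g ∈ T, |g.2 i₁| := this
    omega
  have k1 := key lam mu hpos
  have k2 := key (fun j => M * lam j) (fun i => M * mu i + if i = i₁ then 1 else 0) (by
    intro g hg
    have h3 : ∑ j, M * lam j * m g.1 j + ∑ i, (M * mu i + if i = i₁ then 1 else 0) * g.2 i =
        M * (∑ j, lam j * m g.1 j + ∑ i, mu i * g.2 i) + g.2 i₁ := by
      have h4 : ∀ i, (M * mu i + if i = i₁ then 1 else 0) * g.2 i =
          M * (mu i * g.2 i) + if i = i₁ then g.2 i else 0 := by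
        intro i
        split_ifs <;> ring
      have h5 : ∑ j, M * lam j * m g.1 j = M * ∑ j, lam j * m g.1 j := by
        rw [Finset.mul_sum]
        exact Finset.sum_congr rfl fun j _ => mul_assoc _ _ _
      rw [Finset.sum_congr rfl fun i _ => h4 i, Finset.sum_add_distrib, ← Finset.mul_sum,
        Finset.sum_ite_eq' Finset.univ i₁, if_pos (Finset.mem_univ i₁), h5]
      ring
    rw [h3]
    have h4 := hpos g hg
    have h5 := hM g hg
    have h6 : -|g.2 i₁| ≤ g.2 i₁ := neg_abs_le _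
    have h7 : 0 < M := (abs_nonneg _).trans_lt h5
    nlinarith)
  have e1 : (∑ j, (((M * lam j : ℤ)) : ℂ) • H j : Derivation ℂ K K) =
      (M : ℂ) • ∑ j, ((lam j : ℤ) : ℂ) • H j := by
    rw [Finset.smul_sum]
    refine Finset.sum_congr rfl fun j _ => ?_
    rw [Int.cast_mul, mul_smul]
  have e2 : ∑ i, (e (u i) - e u₀) * (((M * mu i + if i = i₁ then 1 else 0 : ℤ)) : ℂ) =
      M * ∑ i, (e (u i) - e u₀) * ((mu i : ℤ) : ℂ) + (e (u i₁) - e u₀) := by
    have h4 : ∀ i, (e (u i) - e u₀) * (((M * mu i + if i = i₁ then 1 else 0 : ℤ)) : ℂ) =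
        M * ((e (u i) - e u₀) * ((mu i : ℤ) : ℂ)) + if i = i₁ then (e (u i) - e u₀) else 0 := by
      intro i
      split_ifs
      · push_cast
        ring
      · push_cast
        ring
    rw [Finset.sum_congr rfl fun i _ => h4 i, Finset.sum_add_distrib, ← Finset.mul_sum,
      Finset.sum_ite_eq' Finset.univ i₁, if_pos (Finset.mem_univ i₁)]
  rw [e1, e2, LinearMap.map_smul_of_tower, Derivation.smul_apply, smul_div_assoc, smul_comm (e u₀),
    ← smul_sub, k1, map_add, map_mul, Algebra.smul_def] at k2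
  have k3 : algebraMap ℂ K (e (u i₁) - e u₀) = 0 := by
    have := k2.symm
    rwa [add_eq_left] at this
  exact hi₁ (sub_eq_zero.mp ((map_eq_zero (algebraMap ℂ K)).mp k3))

end Pool.Agent.Helper20.D4
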