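import Pool.Agent.Helper20.D4.Res
import Pool.Agent.Helper46.D4.ResU
import Pool.Agent.Helper46.D4.Hat
import Pool.Agent.Helper14.D4.Gens
import Pool.Agent.Helper14.D4.Nc
import Pool.Agent.Helper51.D4.Ext
import Pool.Agent.Helper17.D4.GV
import Pool.Agent.Helper17.D4.Pos
import Pool.Agent.Helper74.D4.Cx
import Pool.Agent.Helper76.D4.Fin
import Pool.Agent.Helper85.D4.Rg

/-!
# Project D4, the piece `S_RES`: the end
-/

set_option autoImplicit false

namespace Pool.Agent.Helper20.D4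

open Module Pool.Agent.Helper37.SD Pool.Agent.Helper20.TS Pool.Agent.Helper88.D4
  Pool.Agent.Helper46.D4

theorem s_UQ (hUN : S_UN) : S_UQ := by
  intro K _ _ R ξ J a hC u u' hu hd s hs0 hus η e e' h h'
  exact (res_uniq hUN hC hu (fun h => hd (dist_symm' h)) hs0 hus h h').symm

theorem s_FIN : S_FIN := by
  intro K _ _ R ξ hR s hs hs0 h01 u₀ hu₀ h0
  classical
  obtain ⟨q, u, hu, hd, hus, hcov⟩ := exists_primes hR.fg hs hs0
  have hus1 : ∀ i, (u i).val s = 1 := fun i => (h01 _ (hu i)).resolve_left (hus i).ne'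
  let I : Type := {i : Fin q // Dist u₀ (u i)}
  let e : I ≃ Fin (Fintype.card I) := Fintype.equivFin I
  refine ⟨Fintype.card I, fun i => u (e.symm i).1, fun i => hu _, ?_, fun i => (e.symm i).2,
    fun i => hus1 _, ?_⟩
  · intro i j hij
    refine hd _ _ fun h => hij ?_
    exact e.symm.injective (Subtype.ext h)
  · intro w hw
    rcases h01 w hw with h1 | h1
    · exact Or.inl h1
    right
    obtain ⟨i, hi⟩ := hcov w hw (by rw [h1]; exact one_pos)
    by_cases h2 : Dist u₀ (u i)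
    · right
      refine ⟨e ⟨i, h2⟩, ?_⟩
      show ¬ Dist w (u (e.symm (e ⟨i, h2⟩)).1)
      rw [Equiv.symm_apply_apply]
      exact hi
    · left
      rw [not_dist_iff] at hi h2 ⊢
      intro y hy
      rw [hi y hy, h2 y hy]

theorem s_RES_of_RG (hRG : S_RG) : S_RES :=
  s_RES_of s_FIN (s_UQ Pool.Agent.Helper76.D4.s_UN) Pool.Agent.Helper51.D4.s_EXT
    (Pool.Agent.Helper74.D4.s_CX Pool.Agent.Helper17.D4.s_GV) Pool.Agent.Helper14.D4.s_GENS
    Pool.Agent.Helper17.D4.s_POS Pool.Agent.Helper14.D4.s_NC Pool.Agent.Helper46.D4.s_HAT hRG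

/-- residues of logarithmic 1-forms and finitely generated Cox algebras -/
theorem s_RES : S_RES :=
  s_RES_of_RG (Pool.Agent.Helper85.D4.s_RG
    (Pool.Agent.Helper74.D4.s_CX Pool.Agent.Helper17.D4.s_GV) Pool.Agent.Helper76.D4.s_UN)

end Pool.Agent.Helper20.D4
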